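import Pool.Agent.Q54.TK.StmB

/-!
# TK-L3: few edges outside `X ∪ B`
-/

set_option autoImplicit false

namespace Pool.Agent.Q65.TK

open Finset Pool.Agent.Q54.TK

theorem l3 : S_GRD → S_L1 → S_L2 → S_L3 := by
  classical
  intro hGRD hL1 hL2 V _ inst F k s X hX
  have hEq : inst = (fun a b => Classical.propDecidable (a = b)) := Subsingleton.elim _ _
  have hk2 := hX.hyp.k2
  have hmat0 : X.card ≤ k * s + k - 1 := by
    have := hX.mat ∅ (Finset.empty_subset _) (by intro e he; simp at he) (by intro e he; simp at he)
    simpa using this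
  set j := k * s + k - 1 - X.card with hj
  set t0 := k * (j + 1) * (k * s) ^ (k - 2) with ht0
  set B : Finset V := univ.filter (fun v => v ∉ X ∧ t0 < dg F {v}) with hB
  have hBX : Disjoint B X := by
    rw [Finset.disjoint_left]
    intro v hv
    rw [hB, Finset.mem_filter] at hv
    exact hv.2.1
  have hBd : ∀ w ∈ B, k * (k * s + k - 1 - X.card + 1) * (k * s) ^ (k - 2) < dg F {w} := by
    intro w hw
    rw [hB, Finset.mem_filter] at hw
    exact hw.2.2
  -- claim A
  have hA : ∀ L : Finset (Finset V), L ⊆ F → PD L → (∀ e ∈ L, ¬ e ⊆ X ∪ B) → L.card + B.card ≤ j := by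
    intro L hLF hLP hL
    obtain ⟨L', hLL', hL'F, hL'P, hL'X, hL'B⟩ := hGRD V F k s X B L hX hLF hLP
      (fun e he h => hL e he (h.trans Finset.subset_union_left)) hBX hBd
    have hm := hX.mat L' hL'F hL'P hL'X
    have h1 : ∀ e ∈ L', (e ∩ B).card + (e \ (X ∪ B)).card ≤ (e \ X).card := by
      intro e _
      rw [← Finset.card_union_of_disjoint]
      · apply Finset.card_le_card
        intro x hx
        rw [Finset.mem_union, Finset.mem_inter, Finset.mem_sdiff, Finset.mem_union] at hx
        rw [Finset.mem_sdiff]
        rcases hx with ⟨h1, h2⟩ | ⟨h1, h2⟩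
        · exact ⟨h1, fun h => (Finset.disjoint_left.1 hBX) h2 h⟩
        · exact ⟨h1, fun h => h2 (Or.inl h)⟩
      · rw [Finset.disjoint_left]
        intro x hx hx2
        rw [Finset.mem_inter] at hx
        rw [Finset.mem_sdiff, Finset.mem_union] at hx2
        exact hx2.2 (Or.inr hx.2)
    have h2 : B.card ≤ ∑ e ∈ L', (e ∩ B).card := by
      have h3 : B ⊆ L'.biUnion (fun e => e ∩ B) := by
        intro w hw
        obtain ⟨e, he, hwe⟩ := hL'B w hw
        rw [Finset.mem_biUnion]
        exact ⟨e, he, Finset.mem_inter.2 ⟨hwe, hw⟩⟩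
      exact (Finset.card_le_card h3).trans Finset.card_biUnion_le
    have h4 : L.card ≤ ∑ e ∈ L', (e \ (X ∪ B)).card := by
      calc L.card = ∑ e ∈ L, 1 := by simp
        _ ≤ ∑ e ∈ L, (e \ (X ∪ B)).card := by
            apply Finset.sum_le_sum
            intro e he
            apply Nat.one_le_iff_ne_zero.2
            intro h
            rw [Finset.card_eq_zero, Finset.sdiff_eq_empty_iff_subset] at h
            exact hL e he h
        _ ≤ ∑ e ∈ L', (e \ (X ∪ B)).card := Finset.sum_le_sum_of_subset hLL'
    have h5 := Finset.sum_le_sum h1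
    rw [Finset.sum_add_distrib] at h5
    omega
  have hAB : B.card ≤ j := by
    have := hA ∅ (Finset.empty_subset _) (by intro e he; simp at he) (by intro e he; simp at he)
    simpa using this
  refine ⟨B, hBX, hAB, ?_⟩
  set F4 := F.filter (fun e => ¬ e ⊆ X ∪ B) with hF4
  -- a maximal matching in F4
  have hne : (F4.powerset.filter (fun L => PD L)).Nonempty := by
    refine ⟨∅, ?_⟩
    rw [Finset.mem_filter]
    exact ⟨Finset.empty_mem_powerset _, by intro e he; simp at he⟩
  obtain ⟨L, hLm, hLmax⟩ := Finset.exists_max_image _ (fun L : Finset (Finset V) => L.card) hne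
  rw [Finset.mem_filter, Finset.mem_powerset] at hLm
  obtain ⟨hLF4, hLP⟩ := hLm
  have hLF : L ⊆ F := hLF4.trans (Finset.filter_subset _ _)
  have hLn : ∀ e ∈ L, ¬ e ⊆ X ∪ B := by
    intro e he
    have := hLF4 he
    rw [hF4, Finset.mem_filter] at this
    exact this.2
  have hLc := hA L hLF hLP hLn
  have hcov : F4 ⊆ (L.biUnion id).biUnion (fun x => F4.filter (fun e => x ∈ e)) := by
    intro e he
    rw [Finset.mem_biUnion]
    by_contra hc
    push Not at hc
    have hdis : ∀ f ∈ L, Disjoint e f := by
      intro f hf
      rw [Finset.disjoint_left]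
      intro x hxe hxf
      apply hc x
      · rw [Finset.mem_biUnion]
        exact ⟨f, hf, hxf⟩
      · rw [Finset.mem_filter]
        exact ⟨he, hxe⟩
    have heF : e ∈ F := (Finset.filter_subset _ _) he
    have hene : e.Nonempty := by
      rw [← Finset.card_pos, hX.hyp.uf e heF]
      omega
    have heL : e ∉ L := by
      intro h
      have := hdis e h
      rw [disjoint_self] at this
      exact hene.ne_empty this
    have hins := hLmax (insert e L) (by
      rw [Finset.mem_filter, Finset.mem_powerset]
      refine ⟨Finset.insert_subset he hLF4, ?_⟩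
      intro a ha b hb hab
      rw [Finset.mem_insert] at ha hb
      rcases ha with rfl | ha <;> rcases hb with rfl | hb
      · exact absurd rfl hab
      · exact hdis b hb
      · exact (hdis a ha).symm
      · exact hLP a ha b hb hab)
    rw [Finset.card_insert_of_notMem heL] at hins
    omega
  have hdeg : ∀ x ∈ L.biUnion id, (F4.filter (fun e => x ∈ e)).card ≤ t0 := by
    intro x _
    have hle : k * j * (k * s) ^ (k - 2) ≤ t0 := by
      rw [ht0]
      apply Nat.mul_le_mul_right
      apply Nat.mul_le_mul_left
      omega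
    by_cases hxX : x ∈ X
    · have h1 := hL1 V F k s X hX x hxX
      refine le_trans (Finset.card_le_card ?_) (h1.trans hle)
      intro e he
      rw [Finset.mem_filter, hF4, Finset.mem_filter] at he
      rw [Finset.mem_filter]
      exact ⟨he.1.1, he.2, fun h => he.1.2 (h.trans Finset.subset_union_left)⟩
    · by_cases hxB : x ∈ B
      · have h1 := hL2 V F k s X hX x hxX
        refine le_trans (Finset.card_le_card ?_) (h1.trans hle)
        intro e he
        rw [Finset.mem_filter, hF4, Finset.mem_filter] at he
        rw [Finset.mem_filter]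
        refine ⟨he.1.1, he.2, ?_⟩
        obtain ⟨y, hye, hy⟩ := Finset.not_subset.1 he.1.2
        rw [Finset.mem_union, not_or] at hy
        have hxy : x ≠ y := by
          rintro rfl
          exact hy.2 hxB
        have h2 : ({x, y} : Finset V) ⊆ e \ X := by
          intro z hz
          rw [Finset.mem_insert, Finset.mem_singleton] at hz
          rw [Finset.mem_sdiff]
          rcases hz with rfl | rfl
          · exact ⟨he.2, hxX⟩
          · exact ⟨hye, hy.1⟩
        have h3 := Finset.card_le_card h2
        rwa [Finset.card_pair hxy] at h3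
      · have h1 : dg F {x} ≤ t0 := by
          by_contra hc
          apply hxB
          rw [hB, Finset.mem_filter]
          exact ⟨Finset.mem_univ _, hxX, not_le.1 hc⟩
        refine le_trans (Finset.card_le_card ?_) h1
        intro e he
        rw [Finset.mem_filter, hF4, Finset.mem_filter] at he
        rw [Finset.mem_filter, Finset.singleton_subset_iff]
        exact ⟨he.1.1, he.2⟩
  have hU : (L.biUnion id).card ≤ k * (j - B.card) := by
    refine Finset.card_biUnion_le.trans ?_
    have h1 : ∑ e ∈ L, (id e : Finset V).card = ∑ e ∈ L, k := by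
      apply Finset.sum_congr rfl
      intro e he
      exact hX.hyp.uf e (hLF he)
    rw [h1, Finset.sum_const, smul_eq_mul, mul_comm]
    apply Nat.mul_le_mul_left
    omega
  calc F4.card ≤ ((L.biUnion id).biUnion (fun x => F4.filter (fun e => x ∈ e))).card := Finset.card_le_card hcov
    _ ≤ ∑ x ∈ L.biUnion id, (F4.filter (fun e => x ∈ e)).card := Finset.card_biUnion_le
    _ ≤ ∑ x ∈ L.biUnion id, t0 := Finset.sum_le_sum hdeg
    _ = (L.biUnion id).card * t0 := by rw [Finset.sum_const, smul_eq_mul]
    _ ≤ k * (j - B.card) * t0 := Nat.mul_le_mul_right _ hU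

end Pool.Agent.Q65.TK
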