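import Pool.Agent.Q54.TK.StmA

/-!
# TK-STB: the expected weight after the selection
-/

set_option autoImplicit false

namespace Pool.Agent.Q65.TK

open Finset Pool.Agent.Q54.TK

open Classical in
theorem stb_point (V : Type) [Fintype V] [DecidableEq V] (F M : Finset (Finset V)) (T : Finset V)
    (c : Finset V → ℝ) (η : ℝ) (hc : ∀ e, 0 ≤ c e) (g : Finset (Finset V)) :
    ∑ e ∈ F, c e * IA M T g e - ∑ v, (if 1 + 2 * η < LV F M T c g v then LV F M T c g v else 0) ≤
      WT F M T c η g := by
  have hIA : ∀ e, 0 ≤ IA M T g e := by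
    intro e
    unfold IA
    split_ifs <;> norm_num
  have h1 : ∑ v, (if 1 + 2 * η < LV F M T c g v then LV F M T c g v else 0) =
      ∑ e ∈ F, ∑ v, (if v ∈ e then c e * IA M T g e * (if 1 + 2 * η < LV F M T c g v then 1 else 0) else 0) := by
    rw [Finset.sum_comm]
    apply Finset.sum_congr rfl
    intro v _
    rw [← Finset.sum_filter, ← Finset.sum_mul]
    have h : LV F M T c g v = ∑ e ∈ F.filter (fun e => v ∈ e), c e * IA M T g e := rfl
    rw [← h]
    split_ifs <;> simp
  rw [h1, ← Finset.sum_sub_distrib]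
  unfold WT
  apply Finset.sum_le_sum
  intro e _
  have hce : 0 ≤ c e * IA M T g e := mul_nonneg (hc e) (hIA e)
  have hnn : ∀ v ∈ (univ : Finset V), 0 ≤ (if v ∈ e then c e * IA M T g e * (if 1 + 2 * η < LV F M T c g v then 1 else 0) else 0) := by
    intro v _
    split_ifs <;> simp [hce]
  by_cases hall : ∀ u ∈ e, LV F M T c g u ≤ 1 + 2 * η
  · rw [if_pos hall, mul_one]
    have := Finset.sum_nonneg hnn
    linarith
  · rw [if_neg hall, mul_zero]
    push Not at hall
    obtain ⟨u, hu, hlt⟩ := hall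
    have h2 := Finset.single_le_sum hnn (Finset.mem_univ u)
    rw [if_pos hu, if_pos hlt, mul_one] at h2
    linarith

theorem stb : S_EBL → S_EIA → S_BAD → S_LVT → S_LDS → S_STB := by
  classical
  intro hEBL hEIA hBAD hLVT hLDS V _ _ F M T k s C c κ η hS hκ0 hκ1 hη
  obtain ⟨hadd, hsub, hsmul, hmono, hconst, hsum⟩ := hEBL (Finset V) (fun _ => κ) (fun _ => ⟨hκ0, hκ1⟩)
  obtain ⟨hq, hksq, hld, hsumld, hsumld2, hcod⟩ := hLDS V F k s hS.hyp
  have hs : (0 : ℝ) < s := by exact_mod_cast hS.hyp.s1
  have hC0 : (0 : ℝ) ≤ C := by linarith [hS.C1]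
  have hcb : ∀ e, c e ≤ C / qq k s := by
    intro e
    rw [le_div_iff₀ hq]
    exact hS.cC e
  have hIA : ∀ g e, 0 ≤ IA M T g e := by
    intro g e
    unfold IA
    split_ifs <;> norm_num
  have hIA1 : ∀ g e, IA M T g e ≤ 1 := by
    intro g e
    unfold IA
    split_ifs <;> norm_num
  -- the load is at most `C ld v`
  have hLV : ∀ g v, LV F M T c g v ≤ C * ld k s F v := by
    intro g v
    unfold LV
    have h1 : ∑ e ∈ F.filter (fun e => v ∈ e), c e * IA M T g e ≤ ∑ e ∈ F.filter (fun e => v ∈ e), C / qq k s := by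
      apply Finset.sum_le_sum
      intro e _
      calc c e * IA M T g e ≤ c e * 1 := mul_le_mul_of_nonneg_left (hIA1 g e) (hS.c0 e)
        _ ≤ C / qq k s := by rw [mul_one]; exact hcb e
    refine h1.trans (le_of_eq ?_)
    rw [Finset.sum_const, nsmul_eq_mul]
    unfold ld dg
    simp only [Finset.singleton_subset_iff]
    ring
  -- pointwise bound
  have hpt : ∀ g, ∑ e ∈ F, c e * IA M T g e - ∑ v, (C * ld k s F v) * (if 1 + 2 * η < LV F M T c g v then 1 else 0) ≤
      WT F M T c η g := by
    intro g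
    refine le_trans ?_ (stb_point V F M T c η hS.c0 g)
    apply sub_le_sub_left
    apply Finset.sum_le_sum
    intro v _
    split_ifs
    · rw [mul_one]; exact hLV g v
    · rw [mul_zero]
  refine le_trans ?_ (hmono _ _ hpt)
  rw [hsub, hsum, hsum]
  have e1 : ∀ e, EB (fun _ : Finset V => κ) (fun g => c e * IA M T g e) = c e * EB (fun _ : Finset V => κ) (fun g => IA M T g e) :=
    fun e => hsmul (c e) (fun g => IA M T g e)
  have e2 : ∀ v, EB (fun _ : Finset V => κ) (fun g => C * ld k s F v * (if 1 + 2 * η < LV F M T c g v then 1 else 0)) =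
      C * ld k s F v * EB (fun _ : Finset V => κ) (fun g => if 1 + 2 * η < LV F M T c g v then 1 else 0) :=
    fun v => hsmul (C * ld k s F v) _
  simp only [e1, e2]
  -- the first sum
  have haT0 : ∀ u, 0 ≤ aT κ T u := by
    intro u; unfold aT; split_ifs <;> linarith
  have haT1 : ∀ u, aT κ T u ≤ 1 := by
    intro u; unfold aT; split_ifs <;> linarith
  have hpr0 : ∀ e : Finset V, 0 ≤ ∏ u ∈ e, aT κ T u := fun e => Finset.prod_nonneg (fun u _ => haT0 u)
  have hpr1 : ∀ e : Finset V, ∏ u ∈ e, aT κ T u ≤ 1 := fun e => Finset.prod_le_one (fun u _ => haT0 u) (fun u _ => haT1 u)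
  have hEIA0 : ∀ e, 0 ≤ EB (fun _ : Finset V => κ) (fun g => IA M T g e) := by
    intro e
    have := hmono (fun _ => 0) (fun g => IA M T g e) (fun g => hIA g e)
    rwa [hconst] at this
  have hA : ∑ e ∈ F, c e * ∏ u ∈ e, aT κ T u - C * k ≤ ∑ e ∈ F, c e * EB (fun _ : Finset V => κ) (fun g => IA M T g e) := by
    have h1 : ∑ e ∈ F, c e * ∏ u ∈ e, aT κ T u - ∑ e ∈ F.filter (fun e => ¬ Gd M T e), C / qq k s ≤
        ∑ e ∈ F, c e * EB (fun _ : Finset V => κ) (fun g => IA M T g e) := by
      rw [Finset.sum_filter, ← Finset.sum_sub_distrib]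
      apply Finset.sum_le_sum
      intro e _
      by_cases hg : Gd M T e
      · rw [if_neg (by simpa using hg), sub_zero, hEIA V M T e κ hg]
      · rw [if_pos hg]
        have h2 : c e * ∏ u ∈ e, aT κ T u ≤ C / qq k s :=
          le_trans (mul_le_of_le_one_right (hS.c0 e) (hpr1 e)) (hcb e)
        have h3 := mul_nonneg (hS.c0 e) (hEIA0 e)
        linarith
    have h4 : ∑ e ∈ F.filter (fun e => ¬ Gd M T e), C / qq k s ≤ C * k := by
      rw [Finset.sum_const, nsmul_eq_mul]
      have h5 := hBAD V F M T k s C c hS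
      have h6 : ((F.filter (fun e => ¬ Gd M T e)).card : ℝ) * (C / qq k s) ≤ k * qq k s * (C / qq k s) := by
        apply mul_le_mul_of_nonneg_right _ (by positivity)
        convert h5 using 2
      refine h6.trans (le_of_eq ?_)
      field_simp
    linarith
  -- the second sum
  have hB : ∑ v, C * ld k s F v * EB (fun _ : Finset V => κ) (fun g => if 1 + 2 * η < LV F M T c g v then 1 else 0) ≤
      C ^ 3 * k ^ 3 / η ^ 2 + ∑ v, (if 1 + η < ell F c κ T v then C * ld k s F v else 0) := by
    have h1 : ∀ v, C * ld k s F v * EB (fun _ : Finset V => κ) (fun g => if 1 + 2 * η < LV F M T c g v then 1 else 0) ≤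
        C ^ 3 * k / (s * η ^ 2) * ld k s F v + (if 1 + η < ell F c κ T v then C * ld k s F v else 0) := by
      intro v
      have hl := hld v
      have hn : 0 ≤ C ^ 3 * k / (s * η ^ 2) * ld k s F v := mul_nonneg (by positivity) hl.1
      have hCl : 0 ≤ C * ld k s F v := mul_nonneg hC0 hl.1
      split_ifs with hv
      · have h2 : EB (fun _ : Finset V => κ) (fun g => if 1 + 2 * η < LV F M T c g v then (1 : ℝ) else 0) ≤ 1 := by
          have := hmono (fun g => if 1 + 2 * η < LV F M T c g v then (1 : ℝ) else 0) (fun _ => 1) (fun g => by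
            show (if 1 + 2 * η < LV F M T c g v then (1 : ℝ) else 0) ≤ 1
            split_ifs <;> norm_num)
          rwa [hconst] at this
        have h3 := mul_le_mul_of_nonneg_left h2 hCl
        linarith
      · have h2 := hLVT V F M T k s C c κ η v hS hκ0 hκ1 hη (not_lt.1 hv)
        have h2' : EB (fun _ : Finset V => κ) (fun g => if 1 + 2 * η < LV F M T c g v then (1 : ℝ) else 0) ≤
            C ^ 2 * k * ld k s F v / s / η ^ 2 := by
          rw [le_div_iff₀ (by positivity)]
          convert h2 using 4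
        have h3 := mul_le_mul_of_nonneg_left h2' hCl
        have h4 : C * ld k s F v * (C ^ 2 * k * ld k s F v / s / η ^ 2) = C ^ 3 * k / (s * η ^ 2) * (ld k s F v * ld k s F v) := by
          field_simp
        have h5 : C ^ 3 * k / (s * η ^ 2) * (ld k s F v * ld k s F v) ≤ C ^ 3 * k / (s * η ^ 2) * ld k s F v := by
          apply mul_le_mul_of_nonneg_left _ (by positivity)
          nlinarith [hl.1, hl.2]
        linarith
    refine (Finset.sum_le_sum (fun v _ => h1 v)).trans ?_
    rw [Finset.sum_add_distrib, ← Finset.mul_sum]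
    have h6 : C ^ 3 * k / (s * η ^ 2) * ∑ v, ld k s F v ≤ C ^ 3 * k / (s * η ^ 2) * (k ^ 2 * s) :=
      mul_le_mul_of_nonneg_left hsumld2 (by positivity)
    have h7 : C ^ 3 * k / (s * η ^ 2) * (k ^ 2 * s) = C ^ 3 * k ^ 3 / η ^ 2 := by
      field_simp
    linarith
  linarith

end Pool.Agent.Q65.TK
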